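import Mathlib

/-!
# Permanents of circulant matrices of prime order in characteristic `p`
-/

namespace Pool.Agent.Q267.Perm

open Finset Equiv

/-- a sum of a function invariant under a permutation of order dividing `p` reduces to the
fixed points in characteristic `p` -/
lemma sum_fixed {α : Type*} [Fintype α] [DecidableEq α] (p : ℕ) [Fact p.Prime]
    (φ : α → α) (hφ : φ^[p] = id) (F : α → ZMod p) (hF : ∀ a, F (φ a) = F a) :
    ∑ a, F a = ∑ a ∈ univ.filter (fun a => φ a = a), F a := by
  have h1 : ∀ s : Finset α, ∑ a ∈ s, F a = ∑ v : ZMod p, ((s.filter (fun a => F a = v)).card : ZMod p) * v := by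
    intro s
    rw [← Finset.sum_fiberwise s F F]
    refine sum_congr rfl fun v _ => ?_
    rw [← nsmul_eq_mul, ← sum_const]
    refine sum_congr rfl fun a ha => ?_
    exact (mem_filter.1 ha).2
  rw [h1 univ, h1 (univ.filter fun a => φ a = a)]
  refine sum_congr rfl fun v _ => ?_
  congr 1
  rw [ZMod.natCast_eq_natCast_iff]
  -- the action on the fibre
  let ψ : Function.End {a // F a = v} := fun a => ⟨φ a.1, (hF a.1).trans a.2⟩
  have hψ : ψ ^ p ^ 1 = 1 := by
    rw [pow_one]
    have hpow : ∀ (k : ℕ) (a : {a // F a = v}), ((ψ ^ k) a : α) = φ^[k] a.1 := by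
      intro k
      induction k with
      | zero => intro a; rfl
      | succ k ih =>
        intro a
        rw [pow_succ', Function.iterate_succ_apply', ← ih]
        rfl
    funext a
    apply Subtype.ext
    rw [hpow p a, hφ]
    rfl
  have h2 := Equiv.Perm.card_fixedPoints_modEq hψ
  have h3 : (univ.filter (fun a => F a = v)).card = Fintype.card {a // F a = v} := by
    rw [Fintype.card_subtype]
  have h4 : ((univ.filter (fun a => φ a = a)).filter (fun a => F a = v)).card =
      Fintype.card (Function.fixedPoints ψ) := by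
    rw [Fintype.card_subtype, filter_filter]
    refine Finset.card_bij' (fun a ha => ⟨a, (mem_filter.1 ha).2.2⟩) (fun a _ => a.1) ?_ ?_ ?_ ?_
    · intro a ha
      rw [mem_filter]
      refine ⟨mem_univ _, ?_⟩
      exact Subtype.ext (mem_filter.1 ha).2.1
    · intro a ha
      rw [mem_filter] at ha ⊢
      exact ⟨mem_univ _, congrArg Subtype.val ha.2, a.2⟩
    · intro a _
      rfl
    · intro a _
      rfl
  rw [h3, h4]
  exact h2

/-- **the permanent of a circulant matrix of prime order over `𝔽_p`** -/
theorem circulant (p : ℕ) [hp : Fact p.Prime] (G : ZMod p → ZMod p) :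
    ∑ σ : Perm (ZMod p), ∏ x, G (σ x - x) = ∑ c, G c := by
  set τ : Perm (ZMod p) := Equiv.addRight 1 with hτ
  have hτx : ∀ x, τ x = x + 1 := fun x => rfl
  have hτi : ∀ x, τ⁻¹ x = x - 1 := by
    intro x
    rw [Perm.inv_eq_iff_eq, hτx, sub_add_cancel]
  have hτk : ∀ (k : ℕ) (x : ZMod p), (τ ^ k) x = x + k := by
    intro k
    induction k with
    | zero => intro x; simp
    | succ k ih =>
      intro x
      rw [pow_succ', Perm.mul_apply, ih, hτx]
      push_cast
      ring
  have hτp : τ ^ p = 1 := by
    ext x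
    rw [hτk, ZMod.natCast_self, add_zero]
    rfl
  set φ : Perm (ZMod p) → Perm (ZMod p) := fun σ => τ * σ * τ⁻¹ with hφ
  have hφk : ∀ (k : ℕ) (σ : Perm (ZMod p)), φ^[k] σ = τ ^ k * σ * (τ ^ k)⁻¹ := by
    intro k
    induction k with
    | zero => intro σ; simp
    | succ k ih =>
      intro σ
      rw [Function.iterate_succ_apply', ih]
      simp only [hφ]
      group
  have hφp : φ^[p] = id := by
    funext σ
    rw [hφk, hτp]
    simp
  have hF : ∀ σ : Perm (ZMod p), ∏ x, G (φ σ x - x) = ∏ x, G (σ x - x) := by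
    intro σ
    rw [← Equiv.prod_comp τ]
    refine prod_congr rfl fun x _ => ?_
    congr 1
    simp only [hφ, Perm.mul_apply, hτi, hτx, add_sub_cancel_right]
    ring
  rw [sum_fixed p φ hφp (fun σ => ∏ x, G (σ x - x)) hF]
  -- the fixed points are the translations
  symm
  refine Finset.sum_bij' (fun c _ => Equiv.addRight c) (fun σ _ => σ 0) ?_ ?_ ?_ ?_ ?_
  · intro c _
    rw [mem_filter]
    refine ⟨mem_univ _, ?_⟩
    ext x
    simp only [hφ, Perm.mul_apply, hτx, hτi]
    simp only [Equiv.coe_addRight]
    ring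
  · intro σ _
    exact mem_univ _
  · intro c _
    simp
  · intro σ hσ
    have h1 := (mem_filter.1 hσ).2
    have h2 : ∀ x, σ (x + 1) = σ x + 1 := by
      intro x
      have h3 : (τ * σ * τ⁻¹) (τ x) = σ (τ x) := by
        have : φ σ = σ := h1
        rw [show τ * σ * τ⁻¹ = σ from this]
      rw [Perm.mul_apply, Perm.mul_apply, hτi, hτx, hτx, add_sub_cancel_right] at h3
      exact h3.symm
    have h4 : ∀ k : ℕ, σ (k : ZMod p) = k + σ 0 := by
      intro k
      induction k with
      | zero => simp
      | succ k ih =>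
        rw [Nat.cast_succ, h2, ih]
        ring
    ext x
    rw [← ZMod.natCast_zmod_val x, h4]
    rfl
  · intro c _
    have h1 : ∀ x : ZMod p, G ((Equiv.addRight c : Perm (ZMod p)) x - x) = G c := by
      intro x
      congr 1
      simp
    rw [prod_congr rfl fun x _ => h1 x, prod_const, card_univ, ZMod.card, ZMod.pow_card]

end Pool.Agent.Q267.Perm
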