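import Mathlib
import Pool.Agent.Q267.Perm.Circ

/-!
# The permanents of `|j-k|` and `|j-k| + δ` modulo `p`
-/

namespace Pool.Agent.Q267.Perm

open Finset Equiv

lemma permanent_equiv {m n R : Type*} [Fintype m] [DecidableEq m] [Fintype n] [DecidableEq n]
    [CommRing R] (e : m ≃ n) (M : Matrix n n R) :
    (M.submatrix e e).permanent = M.permanent := by
  unfold Matrix.permanent
  refine Fintype.sum_equiv (Equiv.permCongr e) _ _ fun σ => ?_
  rw [← Equiv.prod_comp e]
  refine prod_congr rfl fun i _ => ?_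
  simp

variable {p : ℕ} [hp : Fact p.Prime]

/-- the circulant -/
def GG (p : ℕ) (d : ZMod p) : ZMod p := (-1) ^ d.val * d

lemma abs_val (hodd : Odd p) (x y : ZMod p) :
    ((|(y.val : ℤ) - (x.val : ℤ)| : ℤ) : ZMod p) =
      (-1) ^ y.val * (-1) ^ x.val * GG p (y - x) := by
  have hcy : ((y.val : ℤ) : ZMod p) = y := by
    rw [Int.cast_natCast, ZMod.natCast_zmod_val]
  have hcx : ((x.val : ℤ) : ZMod p) = x := by
    rw [Int.cast_natCast, ZMod.natCast_zmod_val]
  unfold GG
  rcases le_or_gt x.val y.val with h | h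
  · rw [abs_of_nonneg (by omega), Int.cast_sub, hcy, hcx, ← mul_assoc, ← pow_add, ← pow_add,
      ZMod.val_sub h]
    have : Even (y.val + x.val + (y.val - x.val)) := by
      refine ⟨y.val, ?_⟩
      omega
    rw [this.neg_one_pow, one_mul]
  · rw [abs_of_neg (by omega), Int.cast_neg, Int.cast_sub, hcy, hcx, ← mul_assoc, ← pow_add,
      ← pow_add]
    have hne : x - y ≠ 0 := by
      intro h0
      rw [sub_eq_zero.1 h0] at h
      omega
    have hne' : NeZero (x - y) := ⟨hne⟩
    have h1 : (y - x).val = p - (x.val - y.val) := by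
      rw [← neg_sub x y, ZMod.val_neg_of_ne_zero, ZMod.val_sub h.le]
    have hlt := ZMod.val_lt x
    have : Odd (y.val + x.val + (y - x).val) := by
      rw [h1]
      obtain ⟨m, hm⟩ := hodd
      refine ⟨y.val + m, ?_⟩
      omega
    rw [this.neg_one_pow]
    ring

/-- the bijection of `ℤ/p` with `{1, …, p}` -/
noncomputable def icc (p : ℕ) [Fact p.Prime] : ZMod p ≃ Finset.Icc 1 p :=
  Equiv.ofBijective (fun x => ⟨x.val + 1, by
    have := ZMod.val_lt x
    rw [Finset.mem_Icc]
    omega⟩) <| by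
    rw [Fintype.bijective_iff_injective_and_card]
    refine ⟨fun x y h => ?_, ?_⟩
    · have h1 := congrArg Subtype.val h
      exact ZMod.val_injective p (Nat.succ_injective h1)
    · rw [ZMod.card, Fintype.card_coe, Nat.card_Icc]
      omega

lemma sum_GG (hodd : Odd p) : 2 * ∑ c, GG p c = -1 := by
  have h1 : ∑ c, GG p c = ∑ k ∈ range p, ((-1) ^ k * (k : ZMod p)) := by
    symm
    refine Finset.sum_nbij' (fun x : ℕ => (x : ZMod p)) (fun y => y.val) ?_ ?_ ?_ ?_ ?_
    · intro x _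
      exact mem_univ _
    · intro y _
      exact mem_range.2 (ZMod.val_lt y)
    · intro x hx
      exact ZMod.val_cast_of_lt (mem_range.1 hx)
    · intro y _
      exact ZMod.natCast_zmod_val y
    · intro x hx
      unfold GG
      rw [ZMod.val_cast_of_lt (mem_range.1 hx)]
  have h2 : ∀ m : ℕ, ∑ k ∈ range (2 * m + 1), ((-1) ^ k * (k : ZMod p)) = m := by
    intro m
    induction m with
    | zero => simp
    | succ m ih =>
      rw [show 2 * (m + 1) + 1 = 2 * m + 1 + 1 + 1 by ring, sum_range_succ, sum_range_succ, ih]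
      have e1 : (-1 : ZMod p) ^ (2 * m + 1) = -1 := Odd.neg_one_pow ⟨m, rfl⟩
      have e2 : (-1 : ZMod p) ^ (2 * m + 1 + 1) = 1 := Even.neg_one_pow ⟨m + 1, by ring⟩
      rw [e1, e2]
      push_cast
      ring
  obtain ⟨m, hm⟩ := hodd
  have h4 : ∑ k ∈ range p, ((-1) ^ k * (k : ZMod p)) = m := by
    rw [← h2 m]
    exact congrArg (fun n => ∑ k ∈ range n, ((-1) ^ k * (k : ZMod p))) hm
  rw [h1, h4]
  have h3 : ((2 * m + 1 : ℕ) : ZMod p) = 0 := by
    rw [← hm]
    exact ZMod.natCast_self p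
  push_cast at h3
  linear_combination h3

theorem reduce (a : ZMod p → ZMod p)
    (M : Matrix (Finset.Icc 1 p) (Finset.Icc 1 p) ℤ)
    (hM : ∀ x y : ZMod p, ((M (icc p y) (icc p x) : ℤ) : ZMod p) =
      (-1) ^ y.val * (-1) ^ x.val * a (y - x)) :
    ((M.permanent : ℤ) : ZMod p) = ∑ c, a c := by
  rw [← circulant, ← permanent_equiv (icc p)]
  unfold Matrix.permanent
  rw [Int.cast_sum]
  refine sum_congr rfl fun σ _ => ?_
  rw [Int.cast_prod]
  have h1 : ∀ i, (((M.submatrix (icc p) (icc p)) (σ i) i : ℤ) : ZMod p) =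
      ((-1) ^ (σ i).val * (-1) ^ i.val) * a (σ i - i) := fun i => hM i (σ i)
  rw [prod_congr rfl fun i _ => h1 i, prod_mul_distrib, prod_mul_distrib]
  have h2 : ∏ i, (-1 : ZMod p) ^ (σ i).val = ∏ i : ZMod p, (-1 : ZMod p) ^ i.val :=
    Equiv.prod_comp σ (fun i : ZMod p => (-1 : ZMod p) ^ i.val)
  rw [h2, ← prod_mul_distrib]
  have h3 : ∀ i : ZMod p, (-1 : ZMod p) ^ i.val * (-1) ^ i.val = 1 := by
    intro i
    rw [← pow_add]
    exact Even.neg_one_pow ⟨_, rfl⟩
  rw [prod_congr rfl fun i _ => h3 i, prod_const_one, one_mul]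

theorem perm_abs (hp2 : p ≠ 2) :
    2 * (Matrix.of fun j k : Finset.Icc 1 p => |((j : ℕ) : ℤ) - ((k : ℕ) : ℤ)|).permanent ≡ -1
      [ZMOD p] := by
  have hodd : Odd p := hp.out.odd_of_ne_two hp2
  rw [← ZMod.intCast_eq_intCast_iff, Int.cast_mul,
    reduce (GG p) _ (fun x y => ?_)]
  · have := sum_GG (p := p) hodd
    push_cast
    exact this
  · rw [← abs_val hodd, Matrix.of_apply]
    congr 2
    show ((y.val + 1 : ℕ) : ℤ) - ((x.val + 1 : ℕ) : ℤ) = _
    push_cast
    ring

theorem perm_abs_add (hp2 : p ≠ 2) :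
    2 * (Matrix.of fun j k : Finset.Icc 1 p =>
      |((j : ℕ) : ℤ) - ((k : ℕ) : ℤ)| + if j = k then 1 else 0).permanent ≡ 1 [ZMOD p] := by
  have hodd : Odd p := hp.out.odd_of_ne_two hp2
  rw [← ZMod.intCast_eq_intCast_iff, Int.cast_mul,
    reduce (fun d => GG p d + if d = 0 then 1 else 0) _ (fun x y => ?_)]
  · rw [sum_add_distrib, sum_ite_eq' univ (0 : ZMod p)]
    have := sum_GG (p := p) hodd
    simp only [mem_univ, if_true]
    push_cast
    linear_combination this
  · rw [mul_add, ← abs_val hodd, Matrix.of_apply, Int.cast_add]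
    congr 1
    · congr 2
      show ((y.val + 1 : ℕ) : ℤ) - ((x.val + 1 : ℕ) : ℤ) = _
      push_cast
      ring
    · by_cases h : y = x
      · subst h
        rw [if_pos rfl, sub_self, if_pos rfl, Int.cast_one, mul_one, ← pow_add]
        exact (Even.neg_one_pow ⟨_, rfl⟩).symm
      · rw [if_neg (fun h1 => h ((icc p).injective h1)), if_neg (sub_ne_zero.2 h), Int.cast_zero,
          mul_zero]

end Pool.Agent.Q267.Perm
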