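import Mathlib
import Pool.Agent.Q267.Perm.Abs

/-!
# The permanent of `i - l + δ` modulo `p²`
-/

set_option linter.unusedSectionVars false

namespace Pool.Agent.Q267.Perm

open Finset Equiv

/-- products of differences with nilpotent parts -/
lemma prod_sub_nil {ι R : Type*} [DecidableEq ι] [CommRing R] (b e : ι → R) (s : Finset ι)
    (he : ∀ x ∈ s, ∀ y ∈ s, e x * e y = 0) :
    ∏ x ∈ s, (b x - e x) = ∏ x ∈ s, b x - ∑ x ∈ s, e x * ∏ y ∈ s.erase x, b y := by
  induction s using Finset.induction_on with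
  | empty => simp
  | insert a s ha ih =>
    rw [prod_insert ha, prod_insert ha, sum_insert ha, erase_insert ha,
      ih (fun x hx y hy => he x (mem_insert_of_mem hx) y (mem_insert_of_mem hy))]
    have h1 : ∀ x ∈ s, e x * ∏ y ∈ (insert a s).erase x, b y =
        b a * (e x * ∏ y ∈ s.erase x, b y) := by
      intro x hx
      have hxa : a ≠ x := fun h => ha (h ▸ hx)
      rw [erase_insert_of_ne hxa, prod_insert (fun h => ha (mem_of_mem_erase h))]
      ring
    rw [sum_congr rfl h1, ← mul_sum]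
    have h2 : e a * ∑ x ∈ s, e x * ∏ y ∈ s.erase x, b y = 0 := by
      rw [mul_sum]
      refine sum_eq_zero fun x hx => ?_
      rw [← mul_assoc, he a (mem_insert_self _ _) x (mem_insert_of_mem hx), zero_mul]
    linear_combination h2

variable {p : ℕ} [hp : Fact p.Prime]

/-- number of fixed points -/
def nfix (σ : Perm (ZMod p)) : ℕ := (univ.filter fun x => σ x = x).card

/-- multiplication by `l` -/
def mu (l : ZMod p) (hl : l ≠ 0) : Perm (ZMod p) := Equiv.mulLeft₀ l hl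

lemma mu_apply (l : ZMod p) (hl : l ≠ 0) (x : ZMod p) : mu l hl x = l * x := rfl

/-- translation by `t` -/
def tr (t : ZMod p) : Perm (ZMod p) := Equiv.addRight t

lemma tr_apply (t x : ZMod p) : tr t x = x + t := rfl

lemma conj_inv_apply (τ σ : Perm (ZMod p)) (x : ZMod p) : (τ * σ * τ⁻¹) (τ x) = τ (σ x) := by
  rw [Perm.mul_apply, Perm.mul_apply]
  congr 2
  rw [Perm.inv_eq_iff_eq]

lemma nfix_conj (τ σ : Perm (ZMod p)) : nfix (τ * σ * τ⁻¹) = nfix σ := by
  unfold nfix
  symm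
  refine Finset.card_bij (fun x _ => τ x) ?_ ?_ ?_
  · intro x hx
    rw [mem_filter] at hx ⊢
    rw [conj_inv_apply, hx.2]
    exact ⟨mem_univ _, rfl⟩
  · intro x _ y _ h
    exact τ.injective h
  · intro y hy
    rw [mem_filter] at hy
    refine ⟨τ.symm y, ?_, τ.apply_symm_apply y⟩
    rw [mem_filter]
    refine ⟨mem_univ _, ?_⟩
    apply τ.injective
    have h := conj_inv_apply τ σ (τ.symm y)
    rw [τ.apply_symm_apply] at h
    rw [← h, hy.2, τ.apply_symm_apply]

section scaling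

variable {R : Type*} [CommRing R]

/-- the weight -/
def WW (B : ZMod p → ZMod p → R) (σ : Perm (ZMod p)) : R := ∏ x, B x (σ x)

lemma WW_conj_mu (B : ZMod p → ZMod p → R) (l : ZMod p) (hl : l ≠ 0) (u : R)
    (h1 : ∀ x, B x x = 1) (hB : ∀ x y, x ≠ y → B (l * x) (l * y) = u * B x y)
    (σ : Perm (ZMod p)) :
    WW B (mu l hl * σ * (mu l hl)⁻¹) = u ^ (p - nfix σ) * WW B σ := by
  unfold WW
  rw [← Equiv.prod_comp (mu l hl)]
  have h2 : ∀ x, B (mu l hl x) ((mu l hl * σ * (mu l hl)⁻¹) (mu l hl x)) =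
      (if σ x = x then 1 else u) * B x (σ x) := by
    intro x
    rw [conj_inv_apply, mu_apply, mu_apply]
    by_cases h : σ x = x
    · rw [if_pos h, h, h1, h1, one_mul]
    · rw [if_neg h, hB x (σ x) (fun h3 => h h3.symm)]
  rw [prod_congr rfl fun x _ => h2 x, prod_mul_distrib]
  congr 1
  rw [prod_ite, prod_const_one, one_mul, prod_const]
  congr 1
  have h3 := Finset.card_filter_add_card_filter_not (s := (univ : Finset (ZMod p)))
    (fun x => σ x = x)
  rw [card_univ, ZMod.card] at h3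
  unfold nfix
  omega

lemma WW_conj_tr (B : ZMod p → ZMod p → R) (t : ZMod p)
    (hB : ∀ x y, B (x + t) (y + t) = B x y) (σ : Perm (ZMod p)) :
    WW B (tr t * σ * (tr t)⁻¹) = WW B σ := by
  unfold WW
  rw [← Equiv.prod_comp (tr t)]
  refine prod_congr rfl fun x _ => ?_
  rw [conj_inv_apply, tr_apply, tr_apply, hB]

/-- conjugation as a permutation of permutations -/
def cj (τ : Perm (ZMod p)) : Perm (ZMod p) ≃ Perm (ZMod p) := (MulAut.conj τ).toEquiv

lemma cj_apply (τ σ : Perm (ZMod p)) : cj τ σ = τ * σ * τ⁻¹ := rfl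

/-- the scaling argument -/
lemma part_zero (B : ZMod p → ZMod p → R) (l : ZMod p) (hl : l ≠ 0) (u : R)
    (h1 : ∀ x, B x x = 1) (hB : ∀ x y, x ≠ y → B (l * x) (l * y) = u * B x y)
    (P : Perm (ZMod p) → Prop) [DecidablePred P]
    (hP : ∀ σ, P (mu l hl * σ * (mu l hl)⁻¹) ↔ P σ) (f : ℕ) (hu : IsUnit (u ^ (p - f) - 1)) :
    ∑ σ ∈ univ.filter (fun σ => P σ ∧ nfix σ = f), WW B σ = 0 := by
  have h2 : ∑ σ ∈ univ.filter (fun σ => P σ ∧ nfix σ = f), WW B σ =
      u ^ (p - f) * ∑ σ ∈ univ.filter (fun σ => P σ ∧ nfix σ = f), WW B σ := by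
    conv_lhs => rw [sum_filter, ← Equiv.sum_comp (cj (mu l hl))]
    rw [mul_sum, sum_filter]
    refine sum_congr rfl fun σ _ => ?_
    rw [cj_apply, nfix_conj]
    by_cases h : P σ ∧ nfix σ = f
    · rw [if_pos h, if_pos ⟨(hP σ).2 h.1, h.2⟩, WW_conj_mu B l hl u h1 hB, h.2]
    · rw [if_neg h, if_neg (fun h3 => h ⟨(hP σ).1 h3.1, h3.2⟩)]
  have h3 : (u ^ (p - f) - 1) * ∑ σ ∈ univ.filter (fun σ => P σ ∧ nfix σ = f), WW B σ = 0 := by
    linear_combination (-1 : R) * h2
  exact hu.mul_right_eq_zero.1 h3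

end scaling

end Pool.Agent.Q267.Perm
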