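import Mathlib
import Pool.Agent.Q267.Perm.Sq

/-!
# Teichmueller lifts modulo `p²` and the decomposition by fixed points
-/

set_option linter.unusedSectionVars false

namespace Pool.Agent.Q267.Perm

open Finset Equiv

variable {p : ℕ} [hp : Fact p.Prime]

/-- the reduction `ℤ/p² → ℤ/p` -/
def red (p : ℕ) [Fact p.Prime] : ZMod (p ^ 2) →+* ZMod p :=
  ZMod.castHom (dvd_pow_self p two_ne_zero) (ZMod p)

lemma red_int (m : ℤ) : red p (m : ZMod (p ^ 2)) = m := map_intCast _ _

lemma isUnit_of_red {x : ZMod (p ^ 2)} (h : red p x ≠ 0) : IsUnit x := by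
  have : NeZero (p ^ 2) := ⟨pow_ne_zero _ hp.out.ne_zero⟩
  rw [← ZMod.natCast_zmod_val x, ZMod.isUnit_iff_coprime]
  refine Nat.Coprime.pow_right _ ?_
  rw [Nat.coprime_comm, Nat.Prime.coprime_iff_not_dvd hp.out]
  intro h1
  apply h
  rw [← ZMod.natCast_zmod_val x, map_natCast, ZMod.natCast_eq_zero_iff]
  exact h1

/-- the Teichmueller lift -/
def om (d : ZMod p) : ZMod (p ^ 2) := ((d.val : ℕ) : ZMod (p ^ 2)) ^ p

lemma om_int (m : ℤ) : om (m : ZMod p) = (m : ZMod (p ^ 2)) ^ p := by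
  unfold om
  have h1 : ((p : ℤ)) ∣ (((m : ZMod p).val : ℕ) : ℤ) - m := by
    rw [← ZMod.intCast_zmod_eq_zero_iff_dvd]
    push_cast
    rw [ZMod.natCast_zmod_val, sub_self]
  have h2 := dvd_sub_pow_of_dvd_sub h1 1
  rw [pow_one, one_add_one_eq_two, ← Nat.cast_pow, ← ZMod.intCast_zmod_eq_zero_iff_dvd] at h2
  push_cast at h2
  exact sub_eq_zero.1 h2

lemma om_mul (x y : ZMod p) : om (x * y) = om x * om y := by
  have hx : ((x.val : ℤ) : ZMod p) = x := by rw [Int.cast_natCast, ZMod.natCast_zmod_val]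
  have hy : ((y.val : ℤ) : ZMod p) = y := by rw [Int.cast_natCast, ZMod.natCast_zmod_val]
  have h : x * y = (((x.val : ℤ) * (y.val : ℤ) : ℤ) : ZMod p) := by
    rw [Int.cast_mul, hx, hy]
  rw [h, om_int]
  conv_rhs => rw [← hx, ← hy, om_int, om_int]
  push_cast
  rw [mul_pow]

lemma red_om (x : ZMod p) : red p (om x) = x := by
  unfold om
  rw [map_pow, map_natCast, ZMod.natCast_zmod_val, ZMod.pow_card]

lemma om_neg_one_mul (hodd : Odd p) (x : ZMod p) : om (-x) = - om x := by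
  rw [← neg_one_mul, om_mul]
  have : om (-1 : ZMod p) = -1 := by
    have h := om_int (p := p) (-1)
    push_cast at h
    rw [h, hodd.neg_one_pow]
  rw [this, neg_one_mul]

/-- circulant of Teichmueller lifts -/
def B1 (x y : ZMod p) : ZMod (p ^ 2) := if x = y then 1 else om (x - y)

/-- its reduction -/
def B0 (x y : ZMod p) : ZMod p := if x = y then 1 else x - y

lemma red_B1 (x y : ZMod p) : red p (B1 x y) = B0 x y := by
  unfold B1 B0
  split_ifs
  · exact map_one _
  · exact red_om _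

lemma exists_gen (p : ℕ) [Fact p.Prime] : ∃ g : ZMod p, orderOf g = p - 1 ∧ g ≠ 0 := by
  obtain ⟨g, hg⟩ := IsCyclic.exists_generator (α := (ZMod p)ˣ)
  have h := orderOf_eq_card_of_forall_mem_zpowers hg
  rw [Nat.card_eq_fintype_card, ZMod.card_units p] at h
  refine ⟨(g : ZMod p), ?_, g.ne_zero⟩
  rw [orderOf_units, h]

lemma gen_pow_ne {g : ZMod p} (hg : orderOf g = p - 1) {k : ℕ} (hk : ¬ (p - 1) ∣ k) :
    g ^ k - 1 ≠ 0 := by
  intro h
  apply hk
  rw [← hg]
  exact orderOf_dvd_of_pow_eq_one (sub_eq_zero.1 h)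

lemma nfix_le (σ : Perm (ZMod p)) : nfix σ ≤ p := by
  unfold nfix
  calc (univ.filter fun x => σ x = x).card ≤ (univ : Finset (ZMod p)).card :=
        card_le_card (filter_subset _ _)
    _ = p := by rw [card_univ, ZMod.card]

lemma nfix_eq_p {σ : Perm (ZMod p)} : nfix σ = p ↔ σ = 1 := by
  constructor
  · intro h
    unfold nfix at h
    have h1 : (univ.filter fun x => σ x = x) = univ := by
      apply eq_of_subset_of_card_le (filter_subset _ _)
      rw [h, card_univ, ZMod.card]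
    ext x
    have h2 : x ∈ univ.filter fun x => σ x = x := by
      rw [h1]
      exact mem_univ _
    rw [(mem_filter.1 h2).2]
    rfl
  · rintro rfl
    unfold nfix
    simp [ZMod.card]

section decomp

variable {R : Type*} [CommRing R]

/-- decomposition by the number of fixed points -/
lemma decomp (hp3 : 3 ≤ p) (w : Perm (ZMod p) → R) (P : Perm (ZMod p) → Prop) [DecidablePred P]
    (h1 : P 1) (hw : w 1 = 1)
    (hz : ∀ f, f ≤ p → f ≠ 1 → f ≠ p →
      ∑ σ ∈ univ.filter (fun σ => P σ ∧ nfix σ = f), w σ = 0) (c : ℕ → R) :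
    ∑ σ ∈ univ.filter P, c (nfix σ) * w σ =
      c 1 * (∑ σ ∈ univ.filter (fun σ => P σ ∧ nfix σ = 1), w σ) + c p := by
  have h2 : ∑ σ ∈ univ.filter P, c (nfix σ) * w σ =
      ∑ f ∈ range (p + 1), c f * ∑ σ ∈ univ.filter (fun σ => P σ ∧ nfix σ = f), w σ := by
    rw [← sum_fiberwise_of_maps_to (s := univ.filter P) (t := range (p + 1)) (g := nfix)
      (fun σ _ => mem_range.2 (Nat.lt_succ_of_le (nfix_le σ)))]
    refine sum_congr rfl fun f _ => ?_
    rw [filter_filter, mul_sum]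
    refine sum_congr rfl fun σ hσ => ?_
    rw [(mem_filter.1 hσ).2.2]
  rw [h2]
  have h3 : ∑ f ∈ range (p + 1), c f * ∑ σ ∈ univ.filter (fun σ => P σ ∧ nfix σ = f), w σ =
      ∑ f ∈ ({1, p} : Finset ℕ),
        c f * ∑ σ ∈ univ.filter (fun σ => P σ ∧ nfix σ = f), w σ := by
    symm
    refine sum_subset ?_ ?_
    · intro f hf
      rw [mem_insert, mem_singleton] at hf
      rw [mem_range]
      omega
    · intro f hf hf2
      rw [mem_insert, mem_singleton, not_or] at hf2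
      rw [mem_range] at hf
      rw [hz f (by omega) hf2.1 hf2.2, mul_zero]
  rw [h3, sum_pair (by omega)]
  congr 1
  have h4 : univ.filter (fun σ : Perm (ZMod p) => P σ ∧ nfix σ = p) = {1} := by
    ext σ
    rw [mem_filter, mem_singleton, nfix_eq_p]
    constructor
    · exact fun h => h.2.2
    · rintro rfl
      exact ⟨mem_univ _, h1, rfl⟩
  rw [h4, sum_singleton, hw, mul_one]

end decomp

lemma not_dvd {f : ℕ} (hp3 : 3 ≤ p) (hf : f ≤ p) (h1 : f ≠ 1) (h2 : f ≠ p) :
    ¬ (p - 1) ∣ (p - f) := by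
  rintro ⟨c, hc⟩
  have hc0 : c ≠ 0 := by
    rintro rfl
    omega
  have hc1 : c ≠ 1 := by
    rintro rfl
    omega
  have : (p - 1) * 2 ≤ (p - 1) * c := Nat.mul_le_mul_left _ (by omega)
  omega

lemma B1_scale (l x y : ZMod p) (hl : l ≠ 0) (hxy : x ≠ y) :
    B1 (l * x) (l * y) = om l * B1 x y := by
  unfold B1
  rw [if_neg hxy, if_neg (fun h => hxy (mul_left_cancel₀ hl h)), ← om_mul, mul_sub]

lemma B0_scale (l x y : ZMod p) (hl : l ≠ 0) (hxy : x ≠ y) :
    B0 (l * x) (l * y) = l * B0 x y := by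
  unfold B0
  rw [if_neg hxy, if_neg (fun h => hxy (mul_left_cancel₀ hl h)), mul_sub]

lemma WW_one {R : Type*} [CommRing R] (B : ZMod p → ZMod p → R) (h1 : ∀ x, B x x = 1) :
    WW B 1 = 1 := prod_eq_one fun x _ => h1 x

/-- modulo `p²`, all permutations -/
lemma decomp_B1 (hp3 : 3 ≤ p) (c : ℕ → ZMod (p ^ 2)) :
    ∑ σ : Perm (ZMod p), c (nfix σ) * WW B1 σ =
      c 1 * (∑ σ ∈ univ.filter (fun σ : Perm (ZMod p) => True ∧ nfix σ = 1), WW B1 σ) + c p := by
  obtain ⟨g, hg, hg0⟩ := exists_gen p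
  have h := decomp hp3 (WW (B1 (p := p))) (fun _ => True) trivial
    (WW_one _ fun x => if_pos rfl) (fun f hf hf1 hf2 =>
      part_zero B1 g hg0 (om g) (fun x => if_pos rfl) (fun x y => B1_scale g x y hg0)
        (fun _ => True) (fun _ => Iff.rfl) f (isUnit_of_red (by
          rw [map_sub, map_pow, red_om, map_one]
          exact gen_pow_ne hg (not_dvd hp3 hf hf1 hf2)))) c
  rw [filter_true_of_mem (fun _ _ => trivial)] at h
  exact h

/-- modulo `p`, permutations fixing `0` -/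
lemma decomp_B0 (hp3 : 3 ≤ p) :
    ∑ σ ∈ univ.filter (fun σ : Perm (ZMod p) => σ 0 = 0), WW B0 σ =
      (∑ σ ∈ univ.filter (fun σ : Perm (ZMod p) => σ 0 = 0 ∧ nfix σ = 1), WW B0 σ) + 1 := by
  obtain ⟨g, hg, hg0⟩ := exists_gen p
  have h := decomp hp3 (WW (B0 (p := p))) (fun σ => σ 0 = 0) rfl
    (WW_one _ fun x => if_pos rfl) (fun f hf hf1 hf2 =>
      part_zero B0 g hg0 g (fun x => if_pos rfl) (fun x y => B0_scale g x y hg0)
        (fun σ => σ 0 = 0) (fun σ => by
          have h0 := conj_inv_apply (mu g hg0) σ 0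
          rw [mu_apply, mul_zero, mu_apply] at h0
          rw [h0, mul_eq_zero]
          exact ⟨fun h => h.resolve_left hg0, fun h => Or.inr h⟩) f
        (isUnit_iff_ne_zero.2 (gen_pow_ne hg (not_dvd hp3 hf hf1 hf2)))) (fun _ => 1)
  simpa only [one_mul] using h

end Pool.Agent.Q267.Perm
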