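import Mathlib
import Pool.Agent.Q267.Perm.Teich

/-!
# The permanent of `i - l + δ` modulo `p²`: conclusion
-/

set_option linter.unusedSectionVars false

namespace Pool.Agent.Q267.Perm

open Finset Equiv

variable {p : ℕ} [hp : Fact p.Prime]

lemma prod_erase_zero : ∏ x ∈ (univ : Finset (ZMod p)).erase 0, x = -1 := by
  rw [← ZMod.prod_Ico_one_prime p]
  symm
  refine Finset.prod_nbij' (fun x : ℕ => (x : ZMod p)) (fun y => y.val) ?_ ?_ ?_ ?_ ?_
  · intro x hx
    rw [mem_Ico] at hx
    rw [mem_erase]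
    refine ⟨?_, mem_univ _⟩
    intro h
    rw [ZMod.natCast_eq_zero_iff] at h
    have := Nat.le_of_dvd (by omega) h
    omega
  · intro y hy
    rw [mem_erase] at hy
    rw [mem_Ico]
    have h1 : y.val ≠ 0 := fun h => hy.1 ((ZMod.val_eq_zero y).1 h)
    exact ⟨by omega, ZMod.val_lt y⟩
  · intro x hx
    exact ZMod.val_cast_of_lt (mem_Ico.1 hx).2
  · intro y _
    exact ZMod.natCast_zmod_val y
  · intro x _
    rfl

lemma card_fix_zero : (((univ.filter (fun σ : Perm (ZMod p) => σ 0 = 0)).card : ℕ) : ZMod p) = -1 := by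
  have h1 : ∀ y : ZMod p, (univ.filter (fun σ : Perm (ZMod p) => σ 0 = y)).card =
      (univ.filter (fun σ : Perm (ZMod p) => σ 0 = 0)).card := by
    intro y
    refine Finset.card_bij' (fun σ _ => tr (-y) * σ) (fun σ _ => tr y * σ) ?_ ?_ ?_ ?_
    · intro σ hσ
      rw [mem_filter] at hσ ⊢
      refine ⟨mem_univ _, ?_⟩
      rw [Perm.mul_apply, tr_apply, hσ.2, add_neg_cancel]
    · intro σ hσ
      rw [mem_filter] at hσ ⊢
      refine ⟨mem_univ _, ?_⟩
      rw [Perm.mul_apply, tr_apply, hσ.2, zero_add]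
    · intro σ _
      ext x
      rw [Perm.mul_apply, Perm.mul_apply, tr_apply, tr_apply, neg_add_cancel_right]
    · intro σ _
      ext x
      rw [Perm.mul_apply, Perm.mul_apply, tr_apply, tr_apply, add_neg_cancel_right]
  have h2 : ∑ y : ZMod p, (univ.filter (fun σ : Perm (ZMod p) => σ 0 = y)).card =
      Fintype.card (Perm (ZMod p)) := by
    rw [← card_univ, Finset.card_eq_sum_card_fiberwise (f := fun σ : Perm (ZMod p) => σ 0)
      (t := univ) (fun _ _ => mem_coe.2 (mem_univ _))]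
  rw [sum_congr rfl fun y _ => h1 y, sum_const, card_univ, ZMod.card, smul_eq_mul,
    Fintype.card_perm, ZMod.card] at h2
  have hpos := hp.out.pos
  have h3 : (univ.filter (fun σ : Perm (ZMod p) => σ 0 = 0)).card = (p - 1).factorial := by
    have h4 : p.factorial = p * (p - 1).factorial := (Nat.mul_factorial_pred hpos.ne').symm
    rw [h4] at h2
    exact Nat.eq_of_mul_eq_mul_left hpos h2
  rw [h3]
  exact ZMod.wilsons_lemma p

/-- `Σ_{σ 0 = 0} ∏_{x ≠ 0} (x - σ x) = 2` in `𝔽_p` -/
lemma sum_fix_zero (hp3 : 3 ≤ p) (hodd : Odd p) :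
    ∑ σ ∈ univ.filter (fun σ : Perm (ZMod p) => σ 0 = 0),
      ∏ x ∈ (univ : Finset (ZMod p)).erase 0, (x - σ x) = 2 := by
  set s : Finset (ZMod p) := univ.erase 0 with hs
  have hcard : s.card = p - 1 := by
    rw [hs, card_erase_of_mem (mem_univ _), card_univ, ZMod.card]
  have h1 : ∀ σ : Perm (ZMod p), ∏ x ∈ s, (x - σ x) =
      ∑ K ∈ s.powerset, (∏ x ∈ K, x) * ∏ x ∈ s \ K, (-σ x) := by
    intro σ
    rw [← Finset.prod_add]
    refine prod_congr rfl fun x _ => ?_
    ring
  rw [sum_congr rfl fun σ _ => h1 σ, sum_comm]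
  -- the scaling
  obtain ⟨g, hg, hg0⟩ := exists_gen p
  have h2 : ∀ L : Finset (ZMod p), ¬ (p - 1) ∣ L.card →
      ∑ σ ∈ univ.filter (fun σ : Perm (ZMod p) => σ 0 = 0), ∏ x ∈ L, (-σ x) = 0 := by
    intro L hL
    have h3 : ∑ σ ∈ univ.filter (fun σ : Perm (ZMod p) => σ 0 = 0), ∏ x ∈ L, (-σ x) =
        g ^ L.card * ∑ σ ∈ univ.filter (fun σ : Perm (ZMod p) => σ 0 = 0), ∏ x ∈ L, (-σ x) := by
      conv_lhs => rw [sum_filter, ← Equiv.sum_comp (Equiv.mulLeft (mu g hg0))]
      rw [mul_sum, sum_filter]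
      refine sum_congr rfl fun σ _ => ?_
      have h4 : ∀ x, (Equiv.mulLeft (mu g hg0) σ) x = g * σ x := fun x => rfl
      simp only [h4]
      by_cases h : σ 0 = 0
      · rw [if_pos h, if_pos (by rw [h, mul_zero])]
        rw [← prod_const, ← prod_mul_distrib]
        refine prod_congr rfl fun x _ => ?_
        ring
      · rw [if_neg h, if_neg (by
          intro h5
          exact h ((mul_eq_zero.1 h5).resolve_left hg0))]
    have h5 : (g ^ L.card - 1) *
        ∑ σ ∈ univ.filter (fun σ : Perm (ZMod p) => σ 0 = 0), ∏ x ∈ L, (-σ x) = 0 := by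
      linear_combination (-1 : ZMod p) * h3
    exact (mul_eq_zero.1 h5).resolve_left (gen_pow_ne hg hL)
  have h6 : ∀ K ∈ s.powerset, K ∉ ({∅, s} : Finset (Finset (ZMod p))) →
      ∑ σ ∈ univ.filter (fun σ : Perm (ZMod p) => σ 0 = 0),
        (∏ x ∈ K, x) * ∏ x ∈ s \ K, (-σ x) = 0 := by
    intro K hK hK2
    rw [mem_powerset] at hK
    rw [mem_insert, mem_singleton, not_or] at hK2
    rw [← mul_sum, h2, mul_zero]
    rw [card_sdiff_of_subset hK, hcard]
    have hle := card_le_card hK
    have h0 : K.card ≠ 0 := fun h => hK2.1 (card_eq_zero.1 h)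
    have h1 : K.card ≠ p - 1 := fun h => hK2.2 (eq_of_subset_of_card_le hK (by rw [hcard, h]))
    rw [hcard] at hle
    intro hd
    have := Nat.le_of_dvd (by omega) hd
    omega
  rw [← sum_subset (s₁ := ({∅, s} : Finset (Finset (ZMod p)))) (by
    intro K hK
    rw [mem_insert, mem_singleton] at hK
    rw [mem_powerset]
    rcases hK with rfl | rfl
    · exact empty_subset _
    · exact Subset.refl _) (fun K hK hK2 => h6 K hK hK2)]
  have hne : (∅ : Finset (ZMod p)) ≠ s := by
    intro h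
    rw [← h, card_empty] at hcard
    omega
  rw [sum_pair hne]
  have hA : ∀ σ ∈ univ.filter (fun σ : Perm (ZMod p) => σ 0 = 0),
      (∏ x ∈ (∅ : Finset (ZMod p)), x) * ∏ x ∈ s \ ∅, (-σ x) = -1 := by
    intro σ hσ
    rw [mem_filter] at hσ
    rw [prod_empty, one_mul, sdiff_empty]
    have h7 : ∏ x ∈ s, (-σ x) = (-1) ^ s.card * ∏ x ∈ s, σ x := by
      rw [← prod_const, ← prod_mul_distrib]
      refine prod_congr rfl fun x _ => ?_
      ring
    have h8 : ∏ x ∈ s, σ x = ∏ x ∈ s, x := by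
      refine Finset.prod_bij' (fun x _ => σ x) (fun x _ => σ.symm x) ?_ ?_ ?_ ?_ ?_
      · intro x hx
        rw [hs, mem_erase] at hx ⊢
        refine ⟨?_, mem_univ _⟩
        intro h
        rw [← hσ.2] at h
        exact hx.1 (σ.injective h)
      · intro x hx
        rw [hs, mem_erase] at hx ⊢
        refine ⟨?_, mem_univ _⟩
        intro h
        rw [Equiv.symm_apply_eq] at h
        exact hx.1 (h.trans hσ.2)
      · intro x _
        exact σ.symm_apply_apply x
      · intro x _
        exact σ.apply_symm_apply x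
      · intro x _
        rfl
    have h9 : Even s.card := by
      rw [hcard]
      obtain ⟨m, hm⟩ := hodd
      exact ⟨m, by omega⟩
    rw [h7, h8, h9.neg_one_pow, one_mul, hs, prod_erase_zero]
  have hB : ∀ σ ∈ univ.filter (fun σ : Perm (ZMod p) => σ 0 = 0),
      (∏ x ∈ s, x) * ∏ x ∈ s \ s, (-σ x) = -1 := by
    intro σ _
    rw [sdiff_self, bot_eq_empty, prod_empty, mul_one, hs, prod_erase_zero]
  rw [sum_congr rfl hA, sum_congr rfl hB, sum_const, nsmul_eq_mul, card_fix_zero]
  ring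

/-- the value modulo `p` -/
lemma T0_eq (hp3 : 3 ≤ p) (hodd : Odd p) :
    ∑ σ ∈ univ.filter (fun σ : Perm (ZMod p) => σ 0 = 0), WW B0 σ = 3 := by
  rw [decomp_B0 hp3]
  have h1 : ∑ σ ∈ univ.filter (fun σ : Perm (ZMod p) => σ 0 = 0 ∧ nfix σ = 1), WW B0 σ =
      ∑ σ ∈ univ.filter (fun σ : Perm (ZMod p) => σ 0 = 0),
        ∏ x ∈ (univ : Finset (ZMod p)).erase 0, (x - σ x) := by
    rw [← filter_filter, sum_filter]
    refine sum_congr rfl fun σ hσ => ?_
    rw [mem_filter] at hσ
    by_cases h : nfix σ = 1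
    · rw [if_pos h]
      unfold WW
      rw [← mul_prod_erase univ _ (mem_univ (0 : ZMod p))]
      have h2 : B0 (0 : ZMod p) (σ 0) = 1 := if_pos hσ.2.symm
      rw [h2, one_mul]
      refine prod_congr rfl fun x hx => ?_
      unfold B0
      rw [if_neg]
      intro h3
      unfold nfix at h
      rw [card_eq_one] at h
      obtain ⟨a, ha⟩ := h
      have h4 : (0 : ZMod p) ∈ univ.filter (fun x => σ x = x) := mem_filter.2 ⟨mem_univ _, hσ.2⟩
      have h5 : x ∈ univ.filter (fun x => σ x = x) := mem_filter.2 ⟨mem_univ _, h3.symm⟩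
      rw [ha, mem_singleton] at h4 h5
      rw [mem_erase] at hx
      exact hx.1 (h5.trans h4.symm)
    · rw [if_neg h]
      symm
      -- another fixed point
      have h2 : ∃ x ∈ (univ : Finset (ZMod p)).erase 0, σ x = x := by
        by_contra hcon
        push Not at hcon
        apply h
        unfold nfix
        rw [card_eq_one]
        refine ⟨0, ?_⟩
        ext x
        rw [mem_filter, mem_singleton]
        constructor
        · rintro ⟨_, h3⟩
          by_contra h4
          exact hcon x (mem_erase.2 ⟨h4, mem_univ _⟩) h3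
        · rintro rfl
          exact ⟨mem_univ _, hσ.2⟩
      obtain ⟨x, hx, hx2⟩ := h2
      exact prod_eq_zero hx (by rw [hx2, sub_self])
  rw [h1, sum_fix_zero hp3 hodd]
  norm_num

end Pool.Agent.Q267.Perm
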