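import Mathlib
import Pool.Agent.Q267.Perm.SqMain

/-!
# The permanent of `i - l + δ` modulo `p²`: the final computation
-/

set_option linter.unusedSectionVars false

namespace Pool.Agent.Q267.Perm

open Finset Equiv

variable {p : ℕ} [hp : Fact p.Prime]

lemma p_mul_eq {u v : ZMod (p ^ 2)} (h : red p u = red p v) : (p : ZMod (p ^ 2)) * u = p * v := by
  have : NeZero (p ^ 2) := ⟨pow_ne_zero _ hp.out.ne_zero⟩
  have h1 : red p (u - v) = 0 := by rw [map_sub, h, sub_self]
  have h2 : u - v = (((u - v).val : ℕ) : ZMod (p ^ 2)) := (ZMod.natCast_zmod_val _).symm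
  rw [h2, map_natCast, ZMod.natCast_eq_zero_iff] at h1
  obtain ⟨c, hc⟩ := h1
  have h3 : (p : ZMod (p ^ 2)) * (u - v) = 0 := by
    rw [h2, hc]
    have h4 : ((p ^ 2 : ℕ) : ZMod (p ^ 2)) = 0 := ZMod.natCast_self _
    push_cast at h4 ⊢
    linear_combination (c : ZMod (p ^ 2)) * h4
  linear_combination h3

lemma p_sq : (p : ZMod (p ^ 2)) * p = 0 := by
  have h4 : ((p ^ 2 : ℕ) : ZMod (p ^ 2)) = 0 := ZMod.natCast_self _
  push_cast at h4
  rw [← pow_two]
  exact h4

lemma B1_tr (t x y : ZMod p) : B1 (x + t) (y + t) = B1 x y := by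
  unfold B1
  have h : (x + t) - (y + t) = x - y := by ring
  rw [h]
  by_cases hxy : x = y
  · rw [if_pos hxy, if_pos (by rw [hxy])]
  · rw [if_neg hxy, if_neg (fun h => hxy (add_right_cancel h))]

/-- `T₀` -/
def T0 (p : ℕ) [Fact p.Prime] : ZMod (p ^ 2) :=
  ∑ σ ∈ univ.filter (fun σ : Perm (ZMod p) => σ 0 = 0), WW B1 σ

/-- `T` -/
def T1 (p : ℕ) [Fact p.Prime] : ZMod (p ^ 2) := ∑ σ : Perm (ZMod p), WW B1 σ

lemma red_T0 (hp3 : 3 ≤ p) (hodd : Odd p) : red p (T0 p) = 3 := by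
  rw [← T0_eq hp3 hodd]
  unfold T0 WW
  rw [map_sum]
  refine sum_congr rfl fun σ _ => ?_
  rw [map_prod]
  exact prod_congr rfl fun x _ => red_B1 _ _

lemma sum_nfix : ∑ σ : Perm (ZMod p), (nfix σ : ZMod (p ^ 2)) * WW B1 σ = p * T0 p := by
  have h1 : ∀ σ : Perm (ZMod p), (nfix σ : ZMod (p ^ 2)) * WW B1 σ =
      ∑ x, if σ x = x then WW B1 σ else 0 := by
    intro σ
    unfold nfix
    rw [← sum_filter, sum_const, nsmul_eq_mul]
  rw [sum_congr rfl fun σ _ => h1 σ, sum_comm]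
  have h2 : ∀ x : ZMod p, (∑ σ : Perm (ZMod p), if σ x = x then WW B1 σ else 0) = T0 p := by
    intro x
    unfold T0
    rw [sum_filter]
    conv_lhs => rw [← Equiv.sum_comp (cj (tr x))]
    refine sum_congr rfl fun σ _ => ?_
    rw [cj_apply, WW_conj_tr B1 x (B1_tr x)]
    have h3 := conj_inv_apply (tr x) σ 0
    rw [tr_apply, zero_add, tr_apply] at h3
    rw [h3]
    by_cases h : σ 0 = 0
    · rw [if_pos h, if_pos (by rw [h, zero_add])]
    · rw [if_neg h, if_neg (fun h4 => h (by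
        have : σ 0 + x = 0 + x := by rw [h4, zero_add]
        exact add_right_cancel this))]
  rw [sum_congr rfl fun x _ => h2 x, sum_const, card_univ, ZMod.card, nsmul_eq_mul]

lemma T1_eq (hp3 : 3 ≤ p) : T1 p = p * T0 p - p + 1 := by
  have h1 := decomp_B1 hp3 (fun _ => (1 : ZMod (p ^ 2)))
  have h2 := decomp_B1 hp3 (fun f => (f : ZMod (p ^ 2)))
  rw [sum_nfix] at h2
  simp only [one_mul, Nat.cast_one] at h1 h2
  unfold T1
  rw [h1]
  linear_combination (-1 : ZMod (p ^ 2)) * h2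

/-- the entries -/
def aa (x y : ZMod p) : ZMod (p ^ 2) :=
  if x = y then 1 else (((x.val : ℤ) - (y.val : ℤ) : ℤ) : ZMod (p ^ 2))

lemma e_mul (x y x' y' : ZMod p) : (B1 x y - aa x y) * (B1 x' y' - aa x' y') = 0 := by
  have h : ∀ x y : ZMod p, ∃ c : ZMod (p ^ 2), B1 x y - aa x y = (p : ZMod (p ^ 2)) * c := by
    intro x y
    unfold B1 aa
    by_cases hxy : x = y
    · rw [if_pos hxy, if_pos hxy]
      exact ⟨0, by ring⟩
    · rw [if_neg hxy, if_neg hxy]
      set m : ℤ := (x.val : ℤ) - (y.val : ℤ) with hm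
      have hm2 : x - y = (m : ZMod p) := by
        rw [hm, Int.cast_sub, Int.cast_natCast, Int.cast_natCast, ZMod.natCast_zmod_val,
          ZMod.natCast_zmod_val]
      rw [hm2, om_int]
      have h1 : (p : ℤ) ∣ m ^ p - m := by
        rw [← ZMod.intCast_zmod_eq_zero_iff_dvd]
        push_cast
        rw [ZMod.pow_card, sub_self]
      obtain ⟨c, hc⟩ := h1
      refine ⟨(c : ZMod (p ^ 2)), ?_⟩
      have h2 := congrArg (Int.cast : ℤ → ZMod (p ^ 2)) hc
      push_cast at h2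
      exact h2
  obtain ⟨c, hc⟩ := h x y
  obtain ⟨c', hc'⟩ := h x' y'
  rw [hc, hc']
  linear_combination c * c' * (p_sq (p := p))

lemma sum_e (d : ZMod p) : ∑ x : ZMod p, (B1 x (x + d) - aa x (x + d)) =
    if d = 0 then 0 else p * B1 0 d := by
  by_cases hd : d = 0
  · subst hd
    rw [if_pos rfl]
    refine sum_eq_zero fun x _ => ?_
    unfold B1 aa
    rw [if_pos (by rw [add_zero]), if_pos (by rw [add_zero]), sub_self]
  · rw [if_neg hd, sum_sub_distrib]
    have h1 : ∀ x : ZMod p, B1 x (x + d) = B1 0 d := by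
      intro x
      have := B1_tr x 0 d
      rw [zero_add, add_comm d x] at this
      exact this
    rw [sum_congr rfl fun x _ => h1 x, sum_const, card_univ, ZMod.card, nsmul_eq_mul]
    have h2 : ∑ x : ZMod p, aa x (x + d) = 0 := by
      have h3 : ∀ x : ZMod p, aa x (x + d) =
          ((x.val : ℕ) : ZMod (p ^ 2)) - (((x + d).val : ℕ) : ZMod (p ^ 2)) := by
        intro x
        unfold aa
        rw [if_neg (fun h => hd (by
          have : x + 0 = x + d := by rw [add_zero]; exact h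
          exact (add_left_cancel this).symm))]
        push_cast
        rfl
      rw [sum_congr rfl fun x _ => h3 x, sum_sub_distrib]
      have h4 : ∑ x : ZMod p, (((x + d).val : ℕ) : ZMod (p ^ 2)) =
          ∑ x : ZMod p, ((x.val : ℕ) : ZMod (p ^ 2)) :=
        Equiv.sum_comp (Equiv.addRight d) (fun x : ZMod p => ((x.val : ℕ) : ZMod (p ^ 2)))
      rw [h4, sub_self]
    rw [h2, sub_zero]

/-- reduction to `T` and `T₀` -/
lemma perm_aa : ∑ σ : Perm (ZMod p), WW aa σ = T1 p - p * (T1 p - T0 p) := by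
  have h1 : ∀ σ : Perm (ZMod p), WW aa σ = WW B1 σ -
      ∑ x, (B1 x (σ x) - aa x (σ x)) * ∏ y ∈ univ.erase x, B1 y (σ y) := by
    intro σ
    unfold WW
    rw [← prod_sub_nil (fun x => B1 x (σ x)) (fun x => B1 x (σ x) - aa x (σ x)) univ
      (fun x _ y _ => e_mul _ _ _ _)]
    refine prod_congr rfl fun x _ => ?_
    ring
  rw [sum_congr rfl fun σ _ => h1 σ, sum_sub_distrib, sum_comm]
  have h2 : ∀ x : ZMod p, ∑ σ : Perm (ZMod p),
      (B1 x (σ x) - aa x (σ x)) * ∏ y ∈ univ.erase x, B1 y (σ y) =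
      ∑ σ : Perm (ZMod p), (B1 x (x + σ 0) - aa x (x + σ 0)) *
        ∏ y ∈ univ.erase 0, B1 y (σ y) := by
    intro x
    rw [← Equiv.sum_comp (cj (tr x))]
    refine sum_congr rfl fun σ _ => ?_
    rw [cj_apply]
    have h3 := conj_inv_apply (tr x) σ 0
    rw [tr_apply, zero_add, tr_apply] at h3
    rw [h3, add_comm (σ 0) x]
    congr 1
    refine Finset.prod_bij' (fun y _ => y - x) (fun y _ => y + x) ?_ ?_ ?_ ?_ ?_
    · intro y hy
      rw [mem_erase] at hy ⊢
      exact ⟨fun h => hy.1 (sub_eq_zero.1 h), mem_univ _⟩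
    · intro y hy
      rw [mem_erase] at hy ⊢
      refine ⟨fun h => hy.1 ?_, mem_univ _⟩
      have : y + x = 0 + x := by rw [h, zero_add]
      exact add_right_cancel this
    · intro y _
      exact sub_add_cancel _ _
    · intro y _
      exact add_sub_cancel_right _ _
    · intro y _
      have h4 := conj_inv_apply (tr x) σ (y - x)
      rw [tr_apply, sub_add_cancel, tr_apply] at h4
      rw [h4, ← B1_tr x (y - x), sub_add_cancel]
  rw [sum_congr rfl fun x _ => h2 x, sum_comm]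
  have h3 : ∀ σ : Perm (ZMod p), ∑ x, (B1 x (x + σ 0) - aa x (x + σ 0)) *
        ∏ y ∈ univ.erase 0, B1 y (σ y) =
      p * (WW B1 σ - if σ 0 = 0 then WW B1 σ else 0) := by
    intro σ
    rw [← sum_mul, sum_e]
    by_cases h : σ 0 = 0
    · rw [if_pos h, if_pos h]
      ring
    · rw [if_neg h, if_neg h, sub_zero, mul_assoc]
      congr 1
      unfold WW
      exact mul_prod_erase univ (fun y => B1 y (σ y)) (mem_univ 0)
  rw [sum_congr rfl fun σ _ => h3 σ, ← mul_sum, sum_sub_distrib, ← sum_filter]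
  rfl

theorem perm_aa_eq (hp3 : 3 ≤ p) (hodd : Odd p) :
    ∑ σ : Perm (ZMod p), WW aa σ = 4 * p + 1 := by
  rw [perm_aa, T1_eq hp3]
  have h1 : (p : ZMod (p ^ 2)) * T0 p = p * 3 := by
    apply p_mul_eq
    rw [red_T0 hp3 hodd, map_ofNat]
  have h2 := p_sq (p := p)
  linear_combination (2 : ZMod (p ^ 2)) * h1 + (1 - T0 p) * h2

/-- the permanent of `i - l + δ` modulo `p²` -/
theorem perm_diff (hp2 : p ≠ 2) :
    (Matrix.of fun j k : Finset.Icc 1 p =>
      ((j : ℕ) : ℤ) - ((k : ℕ) : ℤ) + if j = k then 1 else 0).permanent ≡ 4 * p + 1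
      [ZMOD (p ^ 2 : ℕ)] := by
  have hodd : Odd p := hp.out.odd_of_ne_two hp2
  have hp3 : 3 ≤ p := by
    have := hp.out.two_le
    omega
  rw [← ZMod.intCast_eq_intCast_iff, ← Matrix.permanent_transpose,
    ← permanent_equiv (icc p)]
  have h := perm_aa_eq hp3 hodd
  push_cast
  rw [← h]
  unfold Matrix.permanent WW
  rw [Int.cast_sum]
  refine sum_congr rfl fun σ _ => ?_
  rw [Int.cast_prod]
  refine prod_congr rfl fun x _ => ?_
  rw [Matrix.submatrix_apply, Matrix.transpose_apply, Matrix.of_apply]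
  unfold aa
  have h1 : ∀ y : ZMod p, (((icc p y : Finset.Icc 1 p) : ℕ) : ℤ) = (y.val : ℤ) + 1 := by
    intro y
    show ((y.val + 1 : ℕ) : ℤ) = _
    push_cast
    rfl
  rw [h1, h1]
  by_cases hx : x = σ x
  · rw [if_pos hx, if_pos (by rw [← hx]), ← hx]
    push_cast
    ring
  · rw [if_neg hx, if_neg (fun h2 => hx ((icc p).injective h2))]
    push_cast
    ring

end Pool.Agent.Q267.Perm
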